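import Pool.Agent.V1189.Annulus.Defs

set_option autoImplicit false

open Set MeasureTheory Filter Topology

namespace V1189.Annulus

/-- the closed annulus -/
def annQ : Set ℂ := {z | 1 ≤ ‖z‖ ∧ ‖z‖ ≤ 2}

theorem isCompact_annQ : IsCompact annQ := by
  have h1 : IsClosed annQ := by
    apply IsClosed.inter
    · exact isClosed_le continuous_const continuous_norm
    · exact isClosed_le continuous_norm continuous_const
  have h2 : Bornology.IsBounded annQ := by
    refine (Metric.isBounded_closedBall (x := (0:ℂ)) (r := 2)).subset ?_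
    intro z hz
    simpa using hz.2
  exact Metric.isCompact_of_isClosed_isBounded h1 h2

theorem interior_annQ : interior annQ = {z : ℂ | 1 < ‖z‖ ∧ ‖z‖ < 2} := by
  have e : annQ = (Metric.ball (0:ℂ) 1)ᶜ ∩ Metric.closedBall (0:ℂ) 2 := by
    ext z
    simp [annQ]
  rw [e, interior_inter, interior_compl, closure_ball (0:ℂ) one_ne_zero,
    interior_closedBall (0:ℂ) two_ne_zero]
  ext z
  simp

theorem frontier_annQ : frontier annQ = {z : ℂ | ‖z‖ = 1 ∨ ‖z‖ = 2} := by
  rw [frontier, isCompact_annQ.isClosed.closure_eq, interior_annQ]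
  ext z
  simp only [Set.mem_sdiff, annQ]
  constructor
  · rintro ⟨⟨h1, h2⟩, h3⟩
    by_contra h
    have h4 : ¬ ‖z‖ = 1 := fun h5 => h (Or.inl h5)
    have h5 : ¬ ‖z‖ = 2 := fun h5 => h (Or.inr h5)
    exact h3 ⟨lt_of_le_of_ne h1 (Ne.symm h4), lt_of_le_of_ne h2 h5⟩
  · rintro (h | h)
    · refine ⟨⟨by rw [h], by rw [h]; norm_num⟩, fun h3 => ?_⟩
      have := h3.1
      rw [h] at this
      exact lt_irrefl _ this
    · refine ⟨⟨by rw [h]; norm_num, by rw [h]⟩, fun h3 => ?_⟩
      have := h3.2
      rw [h] at this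
      exact lt_irrefl _ this

theorem isConnected_int : IsConnected (interior annQ) := by
  rw [interior_annQ]
  have h1 : IsConnected ((Ioo (1:ℝ) 2) ×ˢ (univ : Set ℝ)) :=
    (isConnected_Ioo (by norm_num)).prod isConnected_univ
  have h2 : ContinuousOn (fun p : ℝ × ℝ => (p.1 : ℂ) * Complex.exp (p.2 * Complex.I))
      ((Ioo (1:ℝ) 2) ×ˢ (univ : Set ℝ)) := by
    apply Continuous.continuousOn
    fun_prop
  have h3 := h1.image _ h2
  convert h3 using 1
  ext z
  constructor
  · rintro ⟨hz1, hz2⟩
    refine ⟨(‖z‖, Complex.arg z), ⟨⟨hz1, hz2⟩, mem_univ _⟩, ?_⟩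
    exact Complex.norm_mul_exp_arg_mul_I z
  · rintro ⟨⟨r, θ⟩, ⟨⟨hr1, hr2⟩, -⟩, rfl⟩
    have : ‖(r : ℂ) * Complex.exp (θ * Complex.I)‖ = r := by
      rw [norm_mul, Complex.norm_exp_ofReal_mul_I, mul_one, Complex.norm_real, Real.norm_eq_abs,
        abs_of_pos (by linarith)]
    show 1 < ‖(r : ℂ) * Complex.exp (θ * Complex.I)‖ ∧ ‖(r : ℂ) * Complex.exp (θ * Complex.I)‖ < 2
    rw [this]
    exact ⟨hr1, hr2⟩

theorem closure_int : closure (interior annQ) = annQ := by
  apply subset_antisymm
  · calc closure (interior annQ) ⊆ closure annQ := closure_mono interior_subset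
      _ = annQ := isCompact_annQ.isClosed.closure_eq
  · intro z hz
    obtain ⟨h1, h2⟩ := hz
    have hz0 : 0 < ‖z‖ := by linarith
    set u : ℂ := z / ‖z‖ with hu
    have hu1 : ‖u‖ = 1 := by
      rw [hu, norm_div, Complex.norm_real, Real.norm_eq_abs, abs_of_pos hz0,
        div_self (ne_of_gt hz0)]
    let f : ℝ → ℂ := fun r => (r : ℂ) * u
    have hf : Continuous f := by fun_prop
    have hz' : z = f ‖z‖ := by
      show z = (‖z‖ : ℂ) * (z / ‖z‖)
      rw [mul_div_cancel₀]
      exact_mod_cast ne_of_gt hz0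
    have hm : ‖z‖ ∈ closure (Ioo (1:ℝ) 2) := by
      rw [closure_Ioo (by norm_num)]
      exact ⟨h1, h2⟩
    have h3 : f ‖z‖ ∈ closure (f '' (Ioo (1:ℝ) 2)) :=
      image_closure_subset_closure_image hf ⟨_, hm, rfl⟩
    rw [← hz'] at h3
    refine closure_mono ?_ h3
    rintro _ ⟨r, ⟨hr1, hr2⟩, rfl⟩
    rw [interior_annQ]
    have : ‖f r‖ = r := by
      show ‖(r:ℂ) * u‖ = r
      rw [norm_mul, hu1, mul_one, Complex.norm_real, Real.norm_eq_abs, abs_of_pos (by linarith)]
    show 1 < ‖f r‖ ∧ ‖f r‖ < 2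
    rw [this]
    exact ⟨hr1, hr2⟩

/-- the unit circle point -/
noncomputable def ex (t : ℝ) : ℂ := Complex.exp (t * Complex.I)

theorem norm_ex (t : ℝ) : ‖ex t‖ = 1 := Complex.norm_exp_ofReal_mul_I t

theorem ex_add (s t : ℝ) : ex (s + t) = ex s * ex t := by
  unfold ex
  rw [← Complex.exp_add]
  congr 1
  push_cast
  ring

theorem ex_re (t : ℝ) : (ex t).re = Real.cos t := Complex.exp_ofReal_mul_I_re t
theorem ex_im (t : ℝ) : (ex t).im = Real.sin t := Complex.exp_ofReal_mul_I_im t

theorem ex_eq (t : ℝ) : ex t = Real.cos t + Real.sin t * Complex.I := by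
  apply Complex.ext
  · simp [ex_re, ← Complex.ofReal_cos, ← Complex.ofReal_sin]
  · simp [ex_im, ← Complex.ofReal_cos, ← Complex.ofReal_sin]

theorem ex_zero : ex 0 = 1 := by simp [ex]

theorem ex_ne_zero (t : ℝ) : ex t ≠ 0 := Complex.exp_ne_zero _

theorem ex_eq_iff (s t : ℝ) : ex s = ex t ↔ ∃ n : ℤ, t = s + n * (2 * Real.pi) := by
  unfold ex
  rw [eq_comm, Complex.exp_eq_exp_iff_exists_int]
  constructor
  · rintro ⟨n, hn⟩
    refine ⟨n, ?_⟩
    have h := congrArg Complex.im hn
    simpa using h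
  · rintro ⟨n, hn⟩
    refine ⟨n, ?_⟩
    rw [hn]
    push_cast
    ring

theorem hasDerivAt_ex (c s : ℝ) : HasDerivAt (fun s : ℝ => ex (c * s)) (c * Complex.I * ex (c * s)) s := by
  unfold ex
  have h1 : HasDerivAt (fun s : ℝ => ((c * s : ℝ) : ℂ) * Complex.I) (c * Complex.I) s := by
    have h0 : HasDerivAt (fun s : ℝ => ((s : ℝ) : ℂ)) 1 s := Complex.ofRealCLM.hasDerivAt
    have := (h0.const_mul (c : ℂ)).mul_const Complex.I
    simpa using this
  have h2 := h1.cexp
  convert h2 using 1
  ring

/-- boundary curves: `true` is the outer circle, `false` the inner circle. -/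
noncomputable def crv (b : Bool) (s : ℝ) : ℂ := if b then 2 * ex (1 / 2 * s) else ex (1 * s)

theorem crv_deriv (b : Bool) (s : ℝ) :
    HasDerivAt (crv b) (if b then Complex.I * ex (1 / 2 * s) else Complex.I * ex (1 * s)) s := by
  cases b
  · have h := hasDerivAt_ex 1 s
    simp only [Bool.false_eq_true, if_false]
    have e : crv false = fun s : ℝ => ex (1 * s) := by
      funext s; simp [crv]
    rw [e]
    refine h.congr_deriv ?_
    push_cast
    ring
  · have h := (hasDerivAt_ex (1/2) s).const_mul (2:ℂ)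
    simp only [if_true]
    have e : crv true = fun s : ℝ => 2 * ex (1 / 2 * s) := by
      funext s; simp [crv]
    rw [e]
    refine h.congr_deriv ?_
    have e2 : (((1 / 2 : ℝ)) : ℂ) = 1 / 2 := by push_cast; ring
    rw [e2]
    ring

/-- the inward normal -/
noncomputable def nrm (z : ℂ) : ℂ := if ‖z‖ = 2 then -(1 / 2 * z) else z

theorem norm_crv (b : Bool) (s : ℝ) : ‖crv b s‖ = if b then 2 else 1 := by
  cases b
  · simp [crv, norm_ex]
  · simp [crv, norm_ex]

theorem nrm_crv (b : Bool) (s : ℝ) :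
    nrm (crv b s) = if b then -ex (1 / 2 * s) else ex (1 * s) := by
  unfold nrm
  rw [norm_crv]
  cases b
  · simp [crv]
  · simp [crv]

/-- The annulus between the concentric circles of radius `1` and `2`. -/
noncomputable def ann : Table where
  Q := annQ
  isCompact_Q := isCompact_annQ
  isConnected_interior := isConnected_int
  closure_interior := closure_int
  ι := Bool
  finite_ι := inferInstance
  len := fun b => if b then 4 * Real.pi else 2 * Real.pi
  len_pos := by
    intro b
    have := Real.pi_pos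
    cases b
    · simp only [Bool.false_eq_true, if_false]; positivity
    · simp only [if_true]; positivity
  γ := crv
  smooth := by
    intro b
    have h : ∀ c : ℝ, ContDiff ℝ (↑(⊤ : ℕ∞)) (fun s : ℝ => ex (c * s)) := by
      intro c
      unfold ex
      have h1 : ContDiff ℝ (↑(⊤ : ℕ∞)) (fun s : ℝ => ((c * s : ℝ) : ℂ) * Complex.I) := by
        have h0 : ContDiff ℝ (↑(⊤ : ℕ∞)) (fun s : ℝ => ((c * s : ℝ) : ℂ)) :=
          Complex.ofRealCLM.contDiff.comp (contDiff_const.mul contDiff_id)
        exact h0.mul contDiff_const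
      exact h1.cexp
    cases b
    · have e : crv false = fun s : ℝ => ex (1 * s) := by
        funext s; simp [crv]
      rw [e]
      exact h 1
    · have e : crv true = fun s : ℝ => 2 * ex (1 / 2 * s) := by
        funext s; simp [crv]
      rw [e]
      exact contDiff_const.mul (h (1/2))
  unit_speed := by
    intro b s
    rw [(crv_deriv b s).deriv]
    cases b
    · simp [norm_ex]
    · simp [norm_ex]
  periodic := by
    intro b s
    cases b
    · simp only [crv, Bool.false_eq_true, if_false]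
      exact ((ex_eq_iff _ _).2 ⟨1, by push_cast; ring⟩).symm
    · simp only [crv, if_true]
      congr 1
      exact ((ex_eq_iff _ _).2 ⟨1, by push_cast; ring⟩).symm
  injective := by
    intro i j s t h
    have hn := congrArg norm h
    rw [norm_crv, norm_crv] at hn
    cases i <;> cases j
    · refine ⟨rfl, ?_⟩
      simp only [crv, Bool.false_eq_true, if_false] at h
      obtain ⟨n, hn⟩ := (ex_eq_iff _ _).1 h
      exact ⟨n, by simp only [Bool.false_eq_true, if_false]; linarith⟩
    · simp at hn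
    · simp at hn
    · refine ⟨rfl, ?_⟩
      simp only [crv, if_true] at h
      have h' : ex (1 / 2 * s) = ex (1 / 2 * t) := mul_left_cancel₀ two_ne_zero h
      obtain ⟨n, hn⟩ := (ex_eq_iff _ _).1 h'
      exact ⟨n, by simp only [if_true]; linarith⟩
  frontier_eq := by
    rw [frontier_annQ]
    have hz : ∀ z : ℂ, z = ‖z‖ * ex (Complex.arg z) := fun z =>
      (Complex.norm_mul_exp_arg_mul_I z).symm
    ext z
    constructor
    · rintro (h | h)
      · refine mem_iUnion.2 ⟨false, Complex.arg z, ?_⟩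
        simp only [crv, Bool.false_eq_true, if_false, one_mul]
        conv_rhs => rw [hz z, h]
        simp
      · refine mem_iUnion.2 ⟨true, 2 * Complex.arg z, ?_⟩
        simp only [crv, if_true]
        conv_rhs => rw [hz z, h]
        rw [show (1 / 2 * (2 * Complex.arg z) : ℝ) = Complex.arg z by ring]
        push_cast
        rfl
    · intro h
      obtain ⟨b, s, rfl⟩ := mem_iUnion.1 h
      show ‖crv b s‖ = 1 ∨ ‖crv b s‖ = 2
      rw [norm_crv]
      cases b <;> simp
  ν := nrm
  ν_unit := by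
    intro b s
    rw [nrm_crv]
    cases b <;> simp [norm_ex]
  ν_perp := by
    intro b s
    rw [nrm_crv, (crv_deriv b s).deriv]
    cases b
    · simp only [dot, Bool.false_eq_true, if_false, Complex.mul_re, Complex.mul_im, Complex.I_re,
        Complex.I_im]
      ring
    · simp only [dot, if_true, Complex.mul_re, Complex.mul_im, Complex.I_re,
        Complex.I_im, Complex.neg_re, Complex.neg_im]
      ring
  ν_inward := by
    intro b s
    have h1 : ∀ᶠ t : ℝ in 𝓝[>] 0, t ∈ Ioo (0:ℝ) 1 := Ioo_mem_nhdsGT (by norm_num)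
    filter_upwards [h1] with t ht
    rw [interior_annQ, nrm_crv]
    cases b
    · simp only [crv, Bool.false_eq_true, if_false, one_mul]
      have e : ex s + t • ex s = ((1 + t : ℝ) : ℂ) * ex s := by
        rw [Complex.real_smul]; push_cast; ring
      have e2 : ‖ex s + t • ex s‖ = 1 + t := by
        rw [e, norm_mul, norm_ex, mul_one, Complex.norm_real, Real.norm_eq_abs,
          abs_of_pos (by linarith [ht.1])]
      show 1 < ‖ex s + t • ex s‖ ∧ ‖ex s + t • ex s‖ < 2
      rw [e2]
      exact ⟨by linarith [ht.1], by linarith [ht.2]⟩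
    · simp only [crv, if_true]
      have e : 2 * ex (1 / 2 * s) + t • -ex (1 / 2 * s) = ((2 - t : ℝ) : ℂ) * ex (1 / 2 * s) := by
        rw [Complex.real_smul]; push_cast; ring
      have e2 : ‖2 * ex (1 / 2 * s) + t • -ex (1 / 2 * s)‖ = 2 - t := by
        rw [e, norm_mul, norm_ex, mul_one, Complex.norm_real, Real.norm_eq_abs,
          abs_of_pos (by linarith [ht.2])]
      show 1 < ‖2 * ex (1 / 2 * s) + t • -ex (1 / 2 * s)‖ ∧
        ‖2 * ex (1 / 2 * s) + t • -ex (1 / 2 * s)‖ < 2
      rw [e2]
      exact ⟨by linarith [ht.2], by linarith [ht.1]⟩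

end V1189.Annulus
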