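import Mathlib

/-!
# Billiard tables with smooth boundary (no corners): the billiard map, its derivative in the
`(r, φ)` coordinates.

The plane `ℝ²` is represented by `ℂ` (with its Euclidean norm and real inner product).
-/

set_option autoImplicit false

open Set MeasureTheory Filter Topology
open scoped ComplexConjugate

namespace V1189.Annulus

/-- The Euclidean inner product of the plane. -/
noncomputable def dot (z w : ℂ) : ℝ := z.re * w.re + z.im * w.im

/-- A billiard table in the plane whose boundary consists of finitely many pairwise disjoint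
`C^∞` simple closed curves (so there are no corners, and no cusps). -/
structure Table where
  /-- the table -/
  Q : Set ℂ
  isCompact_Q : IsCompact Q
  isConnected_interior : IsConnected (interior Q)
  closure_interior : closure (interior Q) = Q
  /-- the index set of the boundary curves -/
  ι : Type
  finite_ι : Finite ι
  /-- the lengths of the boundary curves -/
  len : ι → ℝ
  len_pos : ∀ i, 0 < len i
  /-- arclength parametrisations of the boundary curves -/
  γ : ι → ℝ → ℂ
  smooth : ∀ i, ContDiff ℝ (↑(⊤ : ℕ∞)) (γ i)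
  unit_speed : ∀ i s, ‖deriv (γ i) s‖ = 1
  periodic : ∀ i s, γ i (s + len i) = γ i s
  injective : ∀ i j s t, γ i s = γ j t → i = j ∧ ∃ k : ℤ, t = s + k * len i
  frontier_eq : frontier Q = ⋃ i, range (γ i)
  /-- the inward unit normal at the boundary points -/
  ν : ℂ → ℂ
  ν_unit : ∀ i s, ‖ν (γ i s)‖ = 1
  ν_perp : ∀ i s, dot (ν (γ i s)) (deriv (γ i) s) = 0
  ν_inward : ∀ i s, ∀ᶠ t : ℝ in 𝓝[>] 0, γ i s + t • ν (γ i s) ∈ interior Q

namespace Table

variable (B : Table)

/-- The phase space: pairs `(q, v)` with `q` on the boundary and `v` a unit vector pointing into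
the table (or tangent to the boundary). -/
def phase : Set (ℂ × ℂ) := {x | x.1 ∈ frontier B.Q ∧ ‖x.2‖ = 1 ∧ 0 ≤ dot x.2 (B.ν x.1)}

/-- One step of the billiard: move from `x.1` in direction `x.2` along the straight line to the
next boundary point `y.1`, and reflect the velocity in the tangent line there. -/
def Step (x y : ℂ × ℂ) : Prop :=
  ∃ t : ℝ, 0 < t ∧ y.1 = x.1 + t • x.2 ∧ y.1 ∈ frontier B.Q ∧
    (∀ s ∈ Ioo 0 t, x.1 + s • x.2 ∈ interior B.Q) ∧
    y.2 = x.2 - (2 * dot x.2 (B.ν y.1)) • B.ν y.1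

open Classical in
/-- The billiard map. -/
noncomputable def T (x : ℂ × ℂ) : ℂ × ℂ := if h : ∃ y, B.Step x y then h.choose else x

/-- `(q, v)` is the point of the phase space with coordinates `(r, φ)` on the `i`-th boundary
curve: `q = γ i r`, and `v` makes the (signed) angle `φ` with the inward normal at `q`. -/
noncomputable def coord (i : B.ι) (z : ℝ × ℝ) : ℂ × ℂ :=
  (B.γ i z.1, Real.sin z.2 • deriv (B.γ i) z.1 + Real.cos z.2 • B.ν (B.γ i z.1))

/-- The full orbit of `x` (in the past and in the future) exists and has only non-tangential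
collisions. -/
def RegularOrbit (x : ℂ × ℂ) : Prop :=
  ∃ X : ℤ → ℂ × ℂ, X 0 = x ∧
    ∀ n, X n ∈ B.phase ∧ 0 < dot (X n).2 (B.ν (X n).1) ∧ B.Step (X n) (X (n + 1))

/-- `L` is the derivative at `x` of the billiard map, in the coordinates `(r, φ)`. -/
def HasDeriv (x : ℂ × ℂ) (L : ℝ × ℝ →L[ℝ] ℝ × ℝ) : Prop :=
  ∃ (i j : B.ι) (z : ℝ × ℝ) (F : ℝ × ℝ → ℝ × ℝ),
    B.coord i z = x ∧ z.2 ∈ Ioo (-(Real.pi / 2)) (Real.pi / 2) ∧
    (F z).2 ∈ Ioo (-(Real.pi / 2)) (Real.pi / 2) ∧
    (∀ᶠ w in 𝓝 z, B.Step (B.coord i w) (B.coord j (F w))) ∧ HasFDerivAt F L z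

theorem Step.unique {x y y' : ℂ × ℂ} (h : B.Step x y) (h' : B.Step x y') : y = y' := by
  obtain ⟨t, ht, h1, h2, h3, h4⟩ := h
  obtain ⟨t', ht', h1', h2', h3', h4'⟩ := h'
  have key : ∀ {a b : ℝ} {p : ℂ}, 0 < a → a < b → p = x.1 + a • x.2 → p ∈ frontier B.Q →
      (∀ s ∈ Ioo 0 b, x.1 + s • x.2 ∈ interior B.Q) → False := by
    intro a b p ha hab hp hf hs
    have := hs a ⟨ha, hab⟩
    rw [← hp] at this
    exact hf.2 this
  have e : t = t' := by
    rcases lt_trichotomy t t' with h | h | h
    · exact (key ht h h1 h2 h3').elim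
    · exact h
    · exact (key ht' h h1' h2' h3).elim
  subst e
  have e1 : y.1 = y'.1 := by rw [h1, h1']
  have e2 : y.2 = y'.2 := by rw [h4, h4', e1]
  exact Prod.ext e1 e2

theorem T_eq {x y : ℂ × ℂ} (h : B.Step x y) : B.T x = y := by
  have hx : ∃ y, B.Step x y := ⟨y, h⟩
  unfold T
  rw [dif_pos hx]
  exact Step.unique B hx.choose_spec h

end Table

end V1189.Annulus
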