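import Pool.Agent.V1189.Annulus.Orb

set_option autoImplicit false
set_option linter.unusedSimpArgs false

open Set MeasureTheory Filter Topology

namespace V1189.Annulus

/-- rotation angle -/
noncomputable def ga (j : ℝ) : ℝ := Real.arcsin j - Real.arcsin (j / 2)

theorem ga_strictMono : StrictMonoOn ga (Ioo 0 1) := by
  have hd : ∀ x ∈ Ioo (0:ℝ) 1, HasDerivAt ga
      (1 / Real.sqrt (1 - x ^ 2) - 1 / Real.sqrt (1 - (x / 2) ^ 2) * (1 / 2)) x := by
    intro x hx
    have h1 := Real.hasDerivAt_arcsin (x := x) (by linarith [hx.1]) (by linarith [hx.2])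
    have h2 := Real.hasDerivAt_arcsin (x := x / 2) (by linarith [hx.1]) (by linarith [hx.2])
    have h3 : HasDerivAt (fun y : ℝ => y / 2) (1 / 2) x := (hasDerivAt_id x).div_const 2
    have h4 : HasDerivAt (fun j : ℝ => Real.arcsin (j / 2))
        (1 / Real.sqrt (1 - (x / 2) ^ 2) * (1 / 2)) x :=
      HasDerivAt.comp (h₂ := Real.arcsin) x h2 h3
    exact h1.sub h4
  apply strictMonoOn_of_deriv_pos (convex_Ioo 0 1)
  · intro x hx
    exact (hd x hx).continuousAt.continuousWithinAt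
  · intro x hx
    rw [interior_Ioo] at hx
    rw [(hd x hx).deriv]
    have hp1 : 0 < 1 - x ^ 2 := by nlinarith [hx.1, hx.2]
    have hp2 : 0 < 1 - (x / 2) ^ 2 := by nlinarith [hx.1, hx.2]
    have hle : Real.sqrt (1 - x ^ 2) ≤ Real.sqrt (1 - (x / 2) ^ 2) :=
      Real.sqrt_le_sqrt (by nlinarith [sq_nonneg x])
    have hs1 := Real.sqrt_pos.2 hp1
    have h4 : 1 / Real.sqrt (1 - (x / 2) ^ 2) ≤ 1 / Real.sqrt (1 - x ^ 2) :=
      one_div_le_one_div_of_le hs1 hle
    have h5 : 0 < 1 / Real.sqrt (1 - (x / 2) ^ 2) := by positivity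
    linarith

theorem rt_pow (j : ℝ) (n : ℕ) : rt j ^ n = ex (n * ga j) := by
  unfold rt ex
  rw [← Complex.exp_nat_mul]
  congr 1
  unfold ga be al
  push_cast
  ring

theorem bad_countable : {j : ℝ | j ∈ Ioo (0:ℝ) 1 ∧ ∃ n : ℕ, 1 ≤ n ∧ rt j ^ n = 1}.Countable := by
  let S : Set ℝ := range (fun p : ℕ × ℤ => p.2 * (2 * Real.pi) / p.1)
  have hS : S.Countable := countable_range _
  apply MapsTo.countable_of_injOn (f := ga) (t := S) _ _ hS
  · rintro j ⟨hj, n, hn, h⟩
    rw [rt_pow, ← ex_zero, eq_comm, ex_eq_iff] at h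
    obtain ⟨k, hk⟩ := h
    refine ⟨(n, k), ?_⟩
    show (k:ℝ) * (2 * Real.pi) / n = ga j
    have hn0 : (n:ℝ) ≠ 0 := by
      have : 0 < n := by omega
      positivity
    rw [div_eq_iff hn0]
    linarith
  · intro a ha b hb h
    exact ga_strictMono.injOn ha.1 hb.1 h

theorem coord_true (z : ℝ × ℝ) :
    ann.coord true z = (2 * ex (1 / 2 * z.1), -(ex (-z.2) * ex (1 / 2 * z.1))) := by
  have h1 : ann.γ true z.1 = 2 * ex (1 / 2 * z.1) := by
    show crv true z.1 = _
    simp [crv]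
  have h2 : deriv (ann.γ true) z.1 = Complex.I * ex (1 / 2 * z.1) := by
    have := (crv_deriv true z.1).deriv
    simp only [if_true] at this
    exact this
  have h3 : ann.ν (ann.γ true z.1) = - ex (1 / 2 * z.1) := by
    have := nrm_crv true z.1
    simp only [if_true] at this
    exact this
  unfold Table.coord
  rw [h3, h2, h1]
  congr 1
  rw [Complex.real_smul, Complex.real_smul, ex_eq (-z.2), Real.cos_neg, Real.sin_neg]
  push_cast
  ring

theorem coord_false (z : ℝ × ℝ) :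
    ann.coord false z = (ex z.1, ex z.2 * ex z.1) := by
  have h1 : ann.γ false z.1 = ex z.1 := by
    show crv false z.1 = _
    simp [crv]
  have h2 : deriv (ann.γ false) z.1 = Complex.I * ex z.1 := by
    have := (crv_deriv false z.1).deriv
    simp only [Bool.false_eq_true, if_false, one_mul] at this
    exact this
  have h3 : ann.ν (ann.γ false z.1) = ex z.1 := by
    have := nrm_crv false z.1
    simp only [Bool.false_eq_true, if_false, one_mul] at this
    exact this
  unfold Table.coord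
  rw [h3, h2, h1]
  congr 1
  rw [Complex.real_smul, Complex.real_smul, ex_eq z.2]
  ring

/-- lift of the billiard map from the outer to the inner circle -/
noncomputable def FO (z : ℝ × ℝ) : ℝ × ℝ :=
  (1 / 2 * z.1 + (Real.arcsin (2 * Real.sin z.2) - z.2), Real.arcsin (2 * Real.sin z.2))
/-- lift of the billiard map from the inner to the outer circle -/
noncomputable def FI (z : ℝ × ℝ) : ℝ × ℝ :=
  (2 * (z.1 + (z.2 - Real.arcsin (Real.sin z.2 / 2))), Real.arcsin (Real.sin z.2 / 2))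

theorem step_FO {z : ℝ × ℝ} (h1 : z.2 ∈ Ioo (-(Real.pi / 2)) (Real.pi / 2))
    (h2 : -1 ≤ 2 * Real.sin z.2) (h3 : 2 * Real.sin z.2 ≤ 1) :
    ann.Step (ann.coord true z) (ann.coord false (FO z)) := by
  rw [coord_true, coord_false]
  have hs : Real.sin (Real.arcsin (2 * Real.sin z.2)) = 2 * Real.sin z.2 :=
    Real.sin_arcsin h2 h3
  have := stepOI hs (Real.cos_arcsin_nonneg _) (Real.cos_pos_of_mem_Ioo h1)
    (norm_ex (1 / 2 * z.1))
  rw [← ex_add (Real.arcsin (2 * Real.sin z.2) - z.2) (1 / 2 * z.1)] at this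
  unfold FO
  simp only
  rw [add_comm (1 / 2 * z.1)]
  exact this

theorem step_FI {z : ℝ × ℝ} (h1 : z.2 ∈ Ioo (-(Real.pi / 2)) (Real.pi / 2)) :
    ann.Step (ann.coord false z) (ann.coord true (FI z)) := by
  rw [coord_true, coord_false]
  have h4 := Real.neg_one_le_sin z.2
  have h5 := Real.sin_le_one z.2
  have hs : Real.sin (Real.arcsin (Real.sin z.2 / 2)) = Real.sin z.2 / 2 :=
    Real.sin_arcsin (by linarith) (by linarith)
  have hc : 0 < Real.cos (Real.arcsin (Real.sin z.2 / 2)) := by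
    rw [Real.cos_arcsin]
    exact Real.sqrt_pos.2 (by nlinarith)
  have := stepIO (a := Real.arcsin (Real.sin z.2 / 2)) (b := z.2) (by rw [hs]; ring)
    (Real.cos_pos_of_mem_Ioo h1).le hc (norm_ex z.1)
  rw [← ex_add (z.2 - Real.arcsin (Real.sin z.2 / 2)) z.1] at this
  unfold FI
  simp only
  rw [show 1 / 2 * (2 * (z.1 + (z.2 - Real.arcsin (Real.sin z.2 / 2))))
    = z.2 - Real.arcsin (Real.sin z.2 / 2) + z.1 by ring]
  exact this

theorem ex_arg {e : ℂ} (he : ‖e‖ = 1) : ex (Complex.arg e) = e := by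
  have := Complex.norm_mul_exp_arg_mul_I e
  rw [he] at this
  simpa [ex] using this

theorem hasDeriv_O {j : ℝ} (h0 : 0 < j) (h1 : j < 1) {e : ℂ} (he : ‖e‖ = 1) :
    ∃ L, ann.HasDeriv (pO e j) L := by
  have hs := sin_al h0 h1
  have hz2 : al j ∈ Ioo (-(Real.pi / 2)) (Real.pi / 2) :=
    ⟨Real.neg_pi_div_two_lt_arcsin.2 (by linarith), Real.arcsin_lt_pi_div_two.2 (by linarith)⟩
  set z : ℝ × ℝ := (2 * Complex.arg e, al j) with hz
  have hdiff : DifferentiableAt ℝ FO z := by
    have hsin : DifferentiableAt ℝ (fun z : ℝ × ℝ => 2 * Real.sin z.2) z := by fun_prop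
    have has : DifferentiableAt ℝ (fun z : ℝ × ℝ => Real.arcsin (2 * Real.sin z.2)) z := by
      have h4 : DifferentiableAt ℝ Real.arcsin (2 * Real.sin z.2) := by
        rw [Real.differentiableAt_arcsin]
        show 2 * Real.sin (al j) ≠ -1 ∧ 2 * Real.sin (al j) ≠ 1
        rw [hs]
        constructor
        · intro h; linarith
        · intro h; linarith
      exact DifferentiableAt.comp (g := Real.arcsin) z h4 hsin
    unfold FO
    apply DifferentiableAt.prodMk
    · fun_prop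
    · exact has
  refine ⟨fderiv ℝ FO z, true, false, z, FO, ?_, hz2, ?_, ?_, hdiff.hasFDerivAt⟩
  · rw [coord_true]
    show (2 * ex (1 / 2 * (2 * Complex.arg e)), -(ex (-al j) * ex (1 / 2 * (2 * Complex.arg e))))
      = (2 * e, -(ex (-al j) * e))
    rw [show (1 / 2 * (2 * Complex.arg e) : ℝ) = Complex.arg e by ring, ex_arg he]
  · show Real.arcsin (2 * Real.sin (al j)) ∈ _
    rw [hs]
    exact ⟨Real.neg_pi_div_two_lt_arcsin.2 (by linarith),
      Real.arcsin_lt_pi_div_two.2 (by linarith)⟩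
  · have ho : IsOpen {w : ℝ × ℝ | (-(Real.pi / 2) < w.2 ∧ w.2 < Real.pi / 2) ∧
        (-1 < 2 * Real.sin w.2 ∧ 2 * Real.sin w.2 < 1)} := by
      apply IsOpen.inter
      · exact (isOpen_lt continuous_const continuous_snd).inter
          (isOpen_lt continuous_snd continuous_const)
      · exact (isOpen_lt continuous_const
            (continuous_const.mul (Real.continuous_sin.comp continuous_snd))).inter
          (isOpen_lt (continuous_const.mul (Real.continuous_sin.comp continuous_snd))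
            continuous_const)
    have hm : z ∈ {w : ℝ × ℝ | (-(Real.pi / 2) < w.2 ∧ w.2 < Real.pi / 2) ∧
        (-1 < 2 * Real.sin w.2 ∧ 2 * Real.sin w.2 < 1)} := by
      refine ⟨hz2, ?_⟩
      show -1 < 2 * Real.sin (al j) ∧ 2 * Real.sin (al j) < 1
      rw [hs]
      constructor <;> linarith
    filter_upwards [ho.mem_nhds hm] with w hw
    exact step_FO hw.1 hw.2.1.le hw.2.2.le

theorem hasDeriv_I {j : ℝ} (h0 : 0 < j) (h1 : j < 1) {e : ℂ} (he : ‖e‖ = 1) :
    ∃ L, ann.HasDeriv (pI e j) L := by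
  have hs := sin_be h0 h1
  have hz2 : be j ∈ Ioo (-(Real.pi / 2)) (Real.pi / 2) :=
    ⟨Real.neg_pi_div_two_lt_arcsin.2 (by linarith), Real.arcsin_lt_pi_div_two.2 (by linarith)⟩
  set z : ℝ × ℝ := (Complex.arg e, be j) with hz
  have hdiff : DifferentiableAt ℝ FI z := by
    have hsin : DifferentiableAt ℝ (fun z : ℝ × ℝ => Real.sin z.2 / 2) z := by fun_prop
    have has : DifferentiableAt ℝ (fun z : ℝ × ℝ => Real.arcsin (Real.sin z.2 / 2)) z := by
      have h4 : DifferentiableAt ℝ Real.arcsin (Real.sin z.2 / 2) := by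
        rw [Real.differentiableAt_arcsin]
        show Real.sin (be j) / 2 ≠ -1 ∧ Real.sin (be j) / 2 ≠ 1
        rw [hs]
        constructor
        · intro h; linarith
        · intro h; linarith
      exact DifferentiableAt.comp (g := Real.arcsin) z h4 hsin
    unfold FI
    apply DifferentiableAt.prodMk
    · fun_prop
    · exact has
  refine ⟨fderiv ℝ FI z, false, true, z, FI, ?_, hz2, ?_, ?_, hdiff.hasFDerivAt⟩
  · rw [coord_false]
    show (ex (Complex.arg e), ex (be j) * ex (Complex.arg e)) = (e, ex (be j) * e)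
    rw [ex_arg he]
  · show Real.arcsin (Real.sin (be j) / 2) ∈ _
    rw [hs]
    exact ⟨Real.neg_pi_div_two_lt_arcsin.2 (by linarith),
      Real.arcsin_lt_pi_div_two.2 (by linarith)⟩
  · have ho : IsOpen {w : ℝ × ℝ | (-(Real.pi / 2) < w.2 ∧ w.2 < Real.pi / 2)} :=
      (isOpen_lt continuous_const continuous_snd).inter
          (isOpen_lt continuous_snd continuous_const)
    filter_upwards [ho.mem_nhds hz2] with w hw
    exact step_FI hw

theorem mom_step {x y : ℂ × ℂ} (h : ann.Step x y) : mom y = mom x := by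
  obtain ⟨t, ht, h1, h2, h3, h4⟩ := h
  have hk : ∃ k : ℝ, ann.ν y.1 = (k : ℂ) * y.1 := by
    show ∃ k : ℝ, nrm y.1 = (k : ℂ) * y.1
    unfold nrm
    split_ifs with hn
    · exact ⟨-(1/2), by push_cast; ring⟩
    · exact ⟨1, by push_cast; ring⟩
  obtain ⟨k, hk⟩ := hk
  rw [hk] at h4
  set c : ℝ := 2 * dot x.2 ((k : ℂ) * y.1) with hc
  have e1 : y.2.re = x.2.re - c * (k * y.1.re) := by
    rw [h4]; simp
  have e2 : y.2.im = x.2.im - c * (k * y.1.im) := by
    rw [h4]; simp
  have e3 : y.1.re = x.1.re + t * x.2.re := by rw [h1]; simp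
  have e4 : y.1.im = x.1.im + t * x.2.im := by rw [h1]; simp
  unfold mom
  rw [e1, e2]
  have : y.1.re * (x.2.im - c * (k * y.1.im)) - y.1.im * (x.2.re - c * (k * y.1.re))
      = y.1.re * x.2.im - y.1.im * x.2.re := by ring
  rw [this, e3, e4]
  ring

theorem mom_coord_true (z : ℝ × ℝ) : mom (ann.coord true z) = 2 * Real.sin z.2 := by
  rw [coord_true]
  have h := sq_one (norm_ex (1 / 2 * z.1))
  unfold mom
  simp only [Complex.mul_re, Complex.mul_im, Complex.neg_re, Complex.neg_im, Complex.re_ofNat,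
    Complex.im_ofNat, ex_re, ex_im, Real.cos_neg, Real.sin_neg] at h ⊢
  linear_combination 2 * Real.sin z.2 * h

theorem mom_coord_false (z : ℝ × ℝ) : mom (ann.coord false z) = Real.sin z.2 := by
  rw [coord_false]
  have h := sq_one (norm_ex z.1)
  unfold mom
  simp only [Complex.mul_re, Complex.mul_im, ex_re, ex_im] at h ⊢
  linear_combination Real.sin z.2 * h

theorem norm_coord (b : Bool) (z : ℝ × ℝ) : ‖(ann.coord b z).1‖ = if b then 2 else 1 := by
  cases b
  · rw [coord_false]; simp [norm_ex]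
  · rw [coord_true]; simp [norm_ex]

theorem lower_O {j : ℝ} (h0 : 0 < j) (h1 : j < 1) {e : ℂ} (he : ‖e‖ = 1)
    {L : ℝ × ℝ →L[ℝ] ℝ × ℝ} (hL : ann.HasDeriv (pO e j) L) :
    (Real.sqrt (1 - j ^ 2))⁻¹ ≤ ‖L‖ := by
  obtain ⟨i, i', z, F, hz, hz2, hF2, hstep, hd⟩ := hL
  change Bool at i i'
  have hi : i = true := by
    have := congrArg (fun x : ℂ × ℂ => ‖x.1‖) hz
    change ‖(ann.coord i z).1‖ = ‖(pO e j).1‖ at this
    have h2 : ‖(pO e j).1‖ = 2 := by
      show ‖2 * e‖ = 2
      rw [norm_mul, he]; norm_num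
    rw [h2, norm_coord] at this
    cases i
    · simp at this
    · rfl
  subst hi
  have hst := hstep.self_of_nhds
  have hi' : i' = false := by
    rw [hz] at hst
    have h3 := Table.Step.unique ann hst (stepO h0 h1 he)
    have := congrArg (fun x : ℂ × ℂ => ‖x.1‖) h3
    change ‖(ann.coord i' (F z)).1‖ = ‖(pI (rt j * e) j).1‖ at this
    have h2 : ‖(pI (rt j * e) j).1‖ = 1 := norm_rt_mul j he
    rw [h2, norm_coord] at this
    cases i'
    · rfl
    · simp at this
  subst hi'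
  have hev : (fun w : ℝ × ℝ => Real.sin (F w).2) =ᶠ[𝓝 z] fun w => 2 * Real.sin w.2 := by
    filter_upwards [hstep] with w hw
    have := mom_step hw
    rw [mom_coord_true, mom_coord_false] at this
    exact this
  have hsz : 2 * Real.sin z.2 = j := by
    have := congrArg mom hz
    rw [mom_coord_true, mom_O h0 h1 he] at this
    exact this
  have hsF : Real.sin (F z).2 = j := by rw [← hsz]; exact hev.self_of_nhds
  have d1 : HasFDerivAt (fun w : ℝ × ℝ => Real.sin (F w).2)
      (Real.cos (F z).2 • ((ContinuousLinearMap.snd ℝ ℝ ℝ).comp L)) z := by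
    have h4 : HasFDerivAt (fun w : ℝ × ℝ => (F w).2) ((ContinuousLinearMap.snd ℝ ℝ ℝ).comp L) z :=
      (ContinuousLinearMap.snd ℝ ℝ ℝ).hasFDerivAt.comp z hd
    exact h4.sin
  have d2 : HasFDerivAt (fun w : ℝ × ℝ => 2 * Real.sin w.2)
      ((2:ℝ) • (Real.cos z.2 • ContinuousLinearMap.snd ℝ ℝ ℝ)) z := by
    have h4 : HasFDerivAt (fun w : ℝ × ℝ => w.2) (ContinuousLinearMap.snd ℝ ℝ ℝ) z :=
      hasFDerivAt_snd
    exact h4.sin.const_mul 2
  have hu := (d2.congr_of_eventuallyEq hev).unique d1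
  have hu1 := congrArg (fun M : ℝ × ℝ →L[ℝ] ℝ => M (0, 1)) hu
  simp only [ContinuousLinearMap.smul_apply, ContinuousLinearMap.comp_apply,
    ContinuousLinearMap.coe_snd', smul_eq_mul, mul_one] at hu1
  have hcF : Real.cos (F z).2 = Real.sqrt (1 - j ^ 2) := by
    have hp := Real.cos_pos_of_mem_Ioo hF2
    have h5 := Real.sin_sq_add_cos_sq (F z).2
    rw [hsF] at h5
    rw [show 1 - j ^ 2 = Real.cos (F z).2 ^ 2 by linarith, Real.sqrt_sq hp.le]
  have hcz : 1 ≤ 2 * Real.cos z.2 := by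
    have hp := Real.cos_pos_of_mem_Ioo hz2
    have h5 := Real.sin_sq_add_cos_sq z.2
    nlinarith
  have hpos : 0 < Real.sqrt (1 - j ^ 2) := Real.sqrt_pos.2 (by nlinarith)
  have hL1 : |(L (0, 1)).2| ≤ ‖L‖ := by
    calc |(L (0, 1)).2| = ‖(L (0, 1)).2‖ := (Real.norm_eq_abs _).symm
      _ ≤ ‖L (0, 1)‖ := norm_snd_le _
      _ ≤ ‖L‖ * ‖((0:ℝ), (1:ℝ))‖ := L.le_opNorm _
      _ = ‖L‖ := by
        rw [Prod.norm_def]; simp
  have h6 : 1 ≤ Real.sqrt (1 - j ^ 2) * (L (0, 1)).2 := by
    rw [← hcF, ← hu1]; exact hcz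
  have h7 : (Real.sqrt (1 - j ^ 2))⁻¹ ≤ (L (0, 1)).2 := by
    rw [inv_le_iff_one_le_mul₀ hpos]
    linarith [mul_comm (Real.sqrt (1 - j ^ 2)) (L (0, 1)).2]
  exact h7.trans ((le_abs_self _).trans hL1)

end V1189.Annulus
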