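import Pool.Agent.V1189.Annulus.Ann

set_option autoImplicit false
set_option linter.unusedSimpArgs false
set_option linter.unusedSectionVars false

open Set MeasureTheory Filter Topology

namespace V1189.Annulus

theorem dot_mul_self (z w : ℂ) (hw : ‖w‖ = 1) : dot (z * w) w = z.re := by
  have h : w.re * w.re + w.im * w.im = 1 := by
    have := Complex.sq_norm w
    rw [hw, Complex.normSq_apply] at this
    linarith
  unfold dot
  rw [Complex.mul_re, Complex.mul_im]
  have : (z.re * w.re - z.im * w.im) * w.re + (z.re * w.im + z.im * w.re) * w.im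
      = z.re * (w.re * w.re + w.im * w.im) := by ring
  rw [this, h, mul_one]

theorem dot_neg (z w : ℂ) : dot z (-w) = - dot z w := by
  unfold dot; simp; ring

theorem nrm_one {z : ℂ} (h : ‖z‖ = 1) : nrm z = z := by
  unfold nrm
  rw [if_neg (by rw [h]; norm_num)]

theorem nrm_two {z : ℂ} (h : ‖z‖ = 1) : nrm (2 * z) = -z := by
  unfold nrm
  rw [if_pos (by rw [norm_mul, h]; norm_num)]
  ring

theorem sq_norm_eq (z : ℂ) : ‖z‖ ^ 2 = z.re ^ 2 + z.im ^ 2 := by
  rw [Complex.sq_norm, Complex.normSq_apply]; ring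

theorem mem_int {z : ℂ} (h1 : 1 < z.re ^ 2 + z.im ^ 2) (h2 : z.re ^ 2 + z.im ^ 2 < 4) :
    z ∈ interior annQ := by
  rw [interior_annQ]
  rw [← sq_norm_eq] at h1 h2
  have := norm_nonneg z
  constructor
  · nlinarith
  · nlinarith

theorem ex_neg_mul (t : ℝ) : ex (-t) * ex t = 1 := by
  rw [← ex_add, neg_add_cancel, ex_zero]

section
variable {a b : ℝ} (hab : Real.sin b = 2 * Real.sin a) (hb : 0 ≤ Real.cos b) (ha : 0 < Real.cos a)

include hab hb ha in
theorem tpos : 0 < 2 * Real.cos a - Real.cos b := by
  have h1 := Real.sin_sq_add_cos_sq a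
  have h2 := Real.sin_sq_add_cos_sq b
  have h3 : Real.sin b ^ 2 = 4 * Real.sin a ^ 2 := by rw [hab]; ring
  by_contra h
  have h4 : 0 ≤ Real.cos b - 2 * Real.cos a := by linarith
  have h5 : 0 ≤ Real.cos b + 2 * Real.cos a := by linarith
  nlinarith [mul_nonneg h4 h5]

include hab in
theorem exb_eq : ex b = 2 * ex a - ((2 * Real.cos a - Real.cos b : ℝ) : ℂ) := by
  apply Complex.ext
  · simp only [Complex.sub_re, Complex.add_re, Complex.neg_re, Complex.mul_re, Complex.sub_im,
      Complex.add_im, Complex.neg_im, Complex.mul_im, Complex.ofReal_re, Complex.ofReal_im,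
      Complex.re_ofNat, Complex.im_ofNat, ex_re, ex_im, Real.cos_neg, Real.sin_neg]
    ring
  · simp only [Complex.sub_re, Complex.add_re, Complex.neg_re, Complex.mul_re, Complex.sub_im,
      Complex.add_im, Complex.neg_im, Complex.mul_im, Complex.ofReal_re, Complex.ofReal_im,
      Complex.re_ofNat, Complex.im_ofNat, ex_re, ex_im, Real.cos_neg, Real.sin_neg]
    linarith

include hab in
theorem exnb_eq : 2 * ex (-a) = ex (-b) + ((2 * Real.cos a - Real.cos b : ℝ) : ℂ) := by
  apply Complex.ext
  · simp only [Complex.sub_re, Complex.add_re, Complex.neg_re, Complex.mul_re, Complex.sub_im,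
      Complex.add_im, Complex.neg_im, Complex.mul_im, Complex.ofReal_re, Complex.ofReal_im,
      Complex.re_ofNat, Complex.im_ofNat, ex_re, ex_im, Real.cos_neg, Real.sin_neg]
    ring
  · simp only [Complex.sub_re, Complex.add_re, Complex.neg_re, Complex.mul_re, Complex.sub_im,
      Complex.add_im, Complex.neg_im, Complex.mul_im, Complex.ofReal_re, Complex.ofReal_im,
      Complex.re_ofNat, Complex.im_ofNat, ex_re, ex_im, Real.cos_neg, Real.sin_neg]
    linarith

include hab hb ha in
theorem stepOI {e : ℂ} (he : ‖e‖ = 1) :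
    ann.Step (2 * e, -(ex (-a) * e)) (ex (b - a) * e, ex b * (ex (b - a) * e)) := by
  have ht := tpos hab hb ha
  have h1 := Real.sin_sq_add_cos_sq a
  have h2 := Real.sin_sq_add_cos_sq b
  have hs3 : Real.sin b ^ 2 = 4 * Real.sin a ^ 2 := by rw [hab]; ring
  set t : ℝ := 2 * Real.cos a - Real.cos b with htdef
  have hne : ‖ex (b - a) * e‖ = 1 := by rw [norm_mul, norm_ex, he, one_mul]
  have hsplit : ex (b - a) = ex b * ex (-a) := by rw [← ex_add, sub_eq_add_neg]
  refine ⟨t, ht, ?_, ?_, ?_, ?_⟩
  · show ex (b - a) * e = 2 * e + t • -(ex (-a) * e)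
    rw [hsplit, exb_eq hab, Complex.real_smul]
    have := ex_neg_mul a
    linear_combination (2 * e) * this
  · show ex (b - a) * e ∈ frontier annQ
    rw [frontier_annQ]
    exact Or.inl hne
  · rintro s ⟨hs0, hs1⟩
    show 2 * e + s • -(ex (-a) * e) ∈ interior annQ
    have e1 : 2 * e + s • -(ex (-a) * e) = (2 * ex a - (s : ℂ)) * (ex (-a) * e) := by
      rw [Complex.real_smul]
      have := ex_neg_mul a
      linear_combination (-2 * e) * this
    have hn : ‖2 * e + s • -(ex (-a) * e)‖ ^ 2 = (2 * Real.cos a - s) ^ 2 + 4 * Real.sin a ^ 2 := by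
      rw [e1, norm_mul, norm_mul, norm_ex, he, mul_one, mul_one, sq_norm_eq]
      simp [ex_re, ex_im]
      ring
    apply mem_int
    · rw [← sq_norm_eq, hn]
      have h6 : Real.cos b < 2 * Real.cos a - s := by linarith
      nlinarith
    · rw [← sq_norm_eq, hn]
      nlinarith
  · show ex b * (ex (b - a) * e) = -(ex (-a) * e) - (2 * dot (-(ex (-a) * e)) (nrm (ex (b - a) * e))) • nrm (ex (b - a) * e)
    rw [nrm_one hne]
    have e2 : -(ex (-a) * e) = (-ex (-b)) * (ex (b - a) * e) := by
      rw [hsplit]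
      have := ex_neg_mul b
      linear_combination (ex (-a) * e) * this
    rw [e2, dot_mul_self _ _ hne, Complex.real_smul]
    have e3 : ex b = -ex (-b) - ((2 * (-ex (-b)).re : ℝ) : ℂ) := by
      apply Complex.ext
      · simp only [Complex.sub_re, Complex.add_re, Complex.neg_re, Complex.mul_re, Complex.sub_im,
      Complex.add_im, Complex.neg_im, Complex.mul_im, Complex.ofReal_re, Complex.ofReal_im,
      Complex.re_ofNat, Complex.im_ofNat, ex_re, ex_im, Real.cos_neg, Real.sin_neg]
        ring
      · simp only [Complex.sub_re, Complex.add_re, Complex.neg_re, Complex.mul_re, Complex.sub_im,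
      Complex.add_im, Complex.neg_im, Complex.mul_im, Complex.ofReal_re, Complex.ofReal_im,
      Complex.re_ofNat, Complex.im_ofNat, ex_re, ex_im, Real.cos_neg, Real.sin_neg]
        ring
    linear_combination (ex (b - a) * e) * e3

include hab hb ha in
theorem stepIO {e : ℂ} (he : ‖e‖ = 1) :
    ann.Step (e, ex b * e) (2 * (ex (b - a) * e), -(ex (-a) * (ex (b - a) * e))) := by
  have ht := tpos hab hb ha
  have h1 := Real.sin_sq_add_cos_sq a
  have h2 := Real.sin_sq_add_cos_sq b
  have hs3 : Real.sin b ^ 2 = 4 * Real.sin a ^ 2 := by rw [hab]; ring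
  set t : ℝ := 2 * Real.cos a - Real.cos b with htdef
  have hne : ‖ex (b - a) * e‖ = 1 := by rw [norm_mul, norm_ex, he, one_mul]
  have hsplit : ex (b - a) = ex b * ex (-a) := by rw [← ex_add, sub_eq_add_neg]
  refine ⟨t, ht, ?_, ?_, ?_, ?_⟩
  · show 2 * (ex (b - a) * e) = e + t • (ex b * e)
    rw [hsplit, Complex.real_smul]
    have h3 := exnb_eq hab
    rw [← htdef] at h3
    have := ex_neg_mul b
    linear_combination (ex b * e) * h3 + e * this
  · show 2 * (ex (b - a) * e) ∈ frontier annQ
    rw [frontier_annQ]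
    right
    rw [norm_mul, hne]; norm_num
  · rintro s ⟨hs0, hs1⟩
    show e + s • (ex b * e) ∈ interior annQ
    have e1 : e + s • (ex b * e) = (ex (-b) + (s : ℂ)) * (ex b * e) := by
      rw [Complex.real_smul]
      have := ex_neg_mul b
      linear_combination (-e) * this
    have hn : ‖e + s • (ex b * e)‖ ^ 2 = (Real.cos b + s) ^ 2 + Real.sin b ^ 2 := by
      rw [e1, norm_mul, norm_mul, norm_ex, he, mul_one, mul_one, sq_norm_eq]
      simp [ex_re, ex_im]
    apply mem_int
    · rw [← sq_norm_eq, hn]
      nlinarith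
    · rw [← sq_norm_eq, hn]
      have h6 : Real.cos b + s < 2 * Real.cos a := by linarith
      have h7 : 0 ≤ Real.cos b + s := by linarith
      nlinarith
  · show -(ex (-a) * (ex (b - a) * e)) = ex b * e - (2 * dot (ex b * e) (nrm (2 * (ex (b - a) * e)))) • nrm (2 * (ex (b - a) * e))
    rw [nrm_two hne, dot_neg]
    have e2 : ex b * e = ex a * (ex (b - a) * e) := by
      rw [hsplit]
      have := ex_neg_mul a
      linear_combination (-(ex b * e)) * this
    rw [e2, dot_mul_self _ _ hne, Complex.real_smul]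
    have e3 : -ex (-a) = ex a - ((2 * (ex a).re : ℝ) : ℂ) := by
      apply Complex.ext
      · simp only [Complex.sub_re, Complex.add_re, Complex.neg_re, Complex.mul_re, Complex.sub_im,
      Complex.add_im, Complex.neg_im, Complex.mul_im, Complex.ofReal_re, Complex.ofReal_im,
      Complex.re_ofNat, Complex.im_ofNat, ex_re, ex_im, Real.cos_neg, Real.sin_neg]
        ring
      · simp only [Complex.sub_re, Complex.add_re, Complex.neg_re, Complex.mul_re, Complex.sub_im,
      Complex.add_im, Complex.neg_im, Complex.mul_im, Complex.ofReal_re, Complex.ofReal_im,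
      Complex.re_ofNat, Complex.im_ofNat, ex_re, ex_im, Real.cos_neg, Real.sin_neg]
        ring
    push_cast at e3 ⊢
    linear_combination (ex (b - a) * e) * e3

end

end V1189.Annulus
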