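import Pool.Agent.V1189.Annulus.Der

set_option autoImplicit false
set_option linter.unusedSimpArgs false

open Set MeasureTheory Filter Topology
open scoped ENNReal

namespace V1189.Annulus

/-- the angular momentum as a function of a uniform random variable -/
noncomputable def Jf (u : ℝ) : ℝ := Real.sqrt (1 - Real.exp (-2 / u))

theorem exp_lt {u : ℝ} (hu : u ∈ Ioo (0:ℝ) 1) : Real.exp (-2 / u) < 1 := by
  rw [Real.exp_lt_one_iff]
  exact div_neg_of_neg_of_pos (by norm_num) hu.1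

theorem Jf_pos {u : ℝ} (hu : u ∈ Ioo (0:ℝ) 1) : 0 < Jf u :=
  Real.sqrt_pos.2 (by linarith [exp_lt hu])

theorem Jf_lt {u : ℝ} (hu : u ∈ Ioo (0:ℝ) 1) : Jf u < 1 := by
  unfold Jf
  rw [Real.sqrt_lt' one_pos]
  linarith [Real.exp_pos (-2 / u)]

theorem Jf_sq {u : ℝ} (hu : u ∈ Ioo (0:ℝ) 1) : 1 - Jf u ^ 2 = Real.exp (-2 / u) := by
  unfold Jf
  rw [Real.sq_sqrt (by linarith [exp_lt hu])]
  ring

theorem Jf_inv {u : ℝ} (hu : u ∈ Ioo (0:ℝ) 1) :
    (Real.sqrt (1 - Jf u ^ 2))⁻¹ = Real.exp (1 / u) := by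
  rw [Jf_sq hu]
  have : Real.exp (-2 / u) = Real.exp (-1 / u) ^ 2 := by
    rw [← Real.exp_nat_mul]; congr 1; push_cast; ring
  rw [this, Real.sqrt_sq (Real.exp_pos _).le, ← Real.exp_neg]
  congr 1; ring

theorem measurable_Jf : Measurable Jf := by
  unfold Jf
  fun_prop

theorem Jf_injOn : InjOn Jf (Ioo 0 1) := by
  intro a ha b hb h
  have h1 := Jf_sq ha
  have h2 := Jf_sq hb
  rw [h, h2] at h1
  have h3 := Real.exp_injective h1
  have ha0 := ha.1.ne'
  have hb0 := hb.1.ne'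
  field_simp at h3
  linarith

theorem measurable_al : Measurable al := by unfold al; fun_prop
theorem measurable_be : Measurable be := by unfold be; fun_prop
theorem measurable_ga : Measurable ga := by unfold ga; fun_prop
theorem measurable_ex : Measurable ex := by unfold ex; fun_prop
theorem measurable_rt : Measurable rt := by
  unfold rt
  exact measurable_ex.comp (measurable_be.sub measurable_al)

/-- a point of the unit circle -/
noncomputable def ee (θ : UnitAddCircle) : ℂ := (AddCircle.toCircle θ : ℂ)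

theorem norm_ee (θ : UnitAddCircle) : ‖ee θ‖ = 1 := Circle.norm_coe _

theorem continuous_ee : Continuous ee := by
  unfold ee
  exact Continuous.comp (by fun_prop) AddCircle.continuous_toCircle

theorem ee_add (θ : UnitAddCircle) (j : ℝ) :
    ee (θ + ((ga j / (2 * Real.pi) : ℝ) : UnitAddCircle)) = rt j * ee θ := by
  unfold ee
  rw [AddCircle.toCircle_add, AddCircle.toCircle_apply_mk, Circle.coe_mul, Circle.coe_exp,
    mul_comm]
  congr 1
  unfold rt ex ga be al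
  congr 1
  have hpi : (Real.pi : ℂ) ≠ 0 := by exact_mod_cast Real.pi_ne_zero
  push_cast
  field_simp

/-- the reference probability space -/
noncomputable def rho : Measure (ℝ × UnitAddCircle) :=
  (volume.restrict (Ioo 0 1)).prod AddCircle.haarAddCircle

noncomputable def FOut (p : ℝ × UnitAddCircle) : ℂ × ℂ := pO (ee p.2) (Jf p.1)
noncomputable def FIn (p : ℝ × UnitAddCircle) : ℂ × ℂ := pI (ee p.2) (Jf p.1)

theorem measurable_FOut : Measurable FOut := by
  unfold FOut pO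
  have h1 : Measurable fun p : ℝ × UnitAddCircle => ee p.2 :=
    continuous_ee.measurable.comp measurable_snd
  have h2 : Measurable fun p : ℝ × UnitAddCircle => ex (-al (Jf p.1)) :=
    measurable_ex.comp (measurable_al.comp (measurable_Jf.comp measurable_fst)).neg
  exact (h1.const_mul 2).prodMk (h2.mul h1).neg

theorem measurable_FIn : Measurable FIn := by
  unfold FIn pI
  have h1 : Measurable fun p : ℝ × UnitAddCircle => ee p.2 :=
    continuous_ee.measurable.comp measurable_snd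
  have h2 : Measurable fun p : ℝ × UnitAddCircle => ex (be (Jf p.1)) :=
    measurable_ex.comp (measurable_be.comp (measurable_Jf.comp measurable_fst))
  exact h1.prodMk (h2.mul h1)

/-- the rotation -/
noncomputable def RR (p : ℝ × UnitAddCircle) : ℝ × UnitAddCircle :=
  (p.1, p.2 + ((ga (Jf p.1) / (2 * Real.pi) : ℝ) : UnitAddCircle))

theorem mp_RR : MeasurePreserving RR rho rho := by
  unfold RR rho
  refine MeasurePreserving.skew_product (MeasurePreserving.id _)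
    (g := fun u θ => θ + ((ga (Jf u) / (2 * Real.pi) : ℝ) : UnitAddCircle)) ?_ ?_
  · have h1 : Measurable fun u : ℝ => ((ga (Jf u) / (2 * Real.pi) : ℝ) : UnitAddCircle) :=
      (AddCircle.measurable_mk' (a := (1:ℝ))).comp
        ((measurable_ga.comp measurable_Jf).div_const _)
    exact measurable_snd.add (h1.comp measurable_fst)
  · filter_upwards with u
    exact map_add_right_eq_self _ _

instance : IsProbabilityMeasure rho := by
  have : IsProbabilityMeasure ((volume : Measure ℝ).restrict (Ioo 0 1)) :=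
    ⟨by simp⟩
  unfold rho
  infer_instance

/-- the invariant measure -/
noncomputable def mu : Measure (ℂ × ℂ) :=
  (2:ℝ≥0∞)⁻¹ • Measure.map FOut rho + (2:ℝ≥0∞)⁻¹ • Measure.map FIn rho

instance : IsProbabilityMeasure mu := by
  constructor
  have h1 : (Measure.map FOut rho) univ = 1 := by
    rw [Measure.map_apply measurable_FOut MeasurableSet.univ, preimage_univ, measure_univ]
  have h2 : (Measure.map FIn rho) univ = 1 := by
    rw [Measure.map_apply measurable_FIn MeasurableSet.univ, preimage_univ, measure_univ]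
  unfold mu
  rw [Measure.add_apply, Measure.smul_apply, Measure.smul_apply, h1, h2, smul_eq_mul, mul_one,
    ENNReal.inv_two_add_inv_two]

theorem measurable_mom : Measurable mom := by
  unfold mom
  fun_prop

/-- good values of the momentum -/
def GJ : Set ℝ := {j | (0 < j ∧ j < 1) ∧ ∀ n : ℕ, 1 ≤ n → rt j ^ n ≠ 1}

theorem measurableSet_GJ : MeasurableSet GJ := by
  have h2 : {j : ℝ | ∀ n : ℕ, 1 ≤ n → rt j ^ n ≠ 1} =
      ⋂ n : ℕ, ⋂ _ : 1 ≤ n, {j | rt j ^ n ≠ 1} := by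
    ext j; simp
  have h3 : MeasurableSet {j : ℝ | ∀ n : ℕ, 1 ≤ n → rt j ^ n ≠ 1} := by
    rw [h2]
    refine MeasurableSet.iInter fun n => MeasurableSet.iInter fun _ => ?_
    exact (measurableSet_eq_fun (measurable_rt.pow_const n) measurable_const).compl
  exact (measurableSet_Ioo (a := (0:ℝ)) (b := 1)).inter h3

theorem ae_GJ : ∀ᵐ u ∂((volume : Measure ℝ).restrict (Ioo 0 1)), Jf u ∈ GJ := by
  rw [ae_restrict_iff' measurableSet_Ioo]
  have hc : ({u : ℝ | u ∈ Ioo (0:ℝ) 1 ∧ Jf u ∈ {j : ℝ | j ∈ Ioo (0:ℝ) 1 ∧ ∃ n : ℕ, 1 ≤ n ∧ rt j ^ n = 1}}).Countable := by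
    apply MapsTo.countable_of_injOn (f := Jf) _ _ bad_countable
    · intro u hu; exact hu.2
    · intro a ha b hb h
      exact Jf_injOn ha.1 hb.1 h
  have h0 := hc.ae_notMem (volume : Measure ℝ)
  filter_upwards [h0] with u hu hu1
  refine ⟨⟨Jf_pos hu1, Jf_lt hu1⟩, ?_⟩
  intro n hn h
  exact hu ⟨hu1, ⟨Jf_pos hu1, Jf_lt hu1⟩, n, hn, h⟩

theorem ae_rho_GJ : ∀ᵐ p ∂rho, p.1 ∈ Ioo (0:ℝ) 1 ∧ Jf p.1 ∈ GJ := by
  have h1 : ∀ᵐ u ∂((volume : Measure ℝ).restrict (Ioo 0 1)), u ∈ Ioo (0:ℝ) 1 ∧ Jf u ∈ GJ := by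
    filter_upwards [ae_GJ, ae_restrict_mem measurableSet_Ioo] with u hu hu'
    exact ⟨hu', hu⟩
  exact Measure.quasiMeasurePreserving_fst.ae h1

def GOut : Set (ℂ × ℂ) := {x | ‖x.1‖ = 2 ∧ mom x ∈ GJ ∧ x = pO (x.1 / 2) (mom x)}
def GIn : Set (ℂ × ℂ) := {x | ‖x.1‖ = 1 ∧ mom x ∈ GJ ∧ x = pI x.1 (mom x)}

theorem measurableSet_GOut : MeasurableSet GOut := by
  have h1 : MeasurableSet {x : ℂ × ℂ | ‖x.1‖ = 2} :=
    measurableSet_eq_fun measurable_fst.norm measurable_const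
  have h2 : MeasurableSet {x : ℂ × ℂ | mom x ∈ GJ} := measurable_mom measurableSet_GJ
  have h3 : MeasurableSet {x : ℂ × ℂ | x = pO (x.1 / 2) (mom x)} := by
    apply measurableSet_eq_fun measurable_id
    unfold pO
    have h4 : Measurable fun x : ℂ × ℂ => x.1 / 2 := measurable_fst.div_const 2
    have h5 : Measurable fun x : ℂ × ℂ => ex (-al (mom x)) :=
      measurable_ex.comp (measurable_al.comp measurable_mom).neg
    exact (h4.const_mul 2).prodMk (h5.mul h4).neg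
  exact h1.inter (h2.inter h3)

theorem measurableSet_GIn : MeasurableSet GIn := by
  have h1 : MeasurableSet {x : ℂ × ℂ | ‖x.1‖ = 1} :=
    measurableSet_eq_fun measurable_fst.norm measurable_const
  have h2 : MeasurableSet {x : ℂ × ℂ | mom x ∈ GJ} := measurable_mom measurableSet_GJ
  have h3 : MeasurableSet {x : ℂ × ℂ | x = pI x.1 (mom x)} := by
    apply measurableSet_eq_fun measurable_id
    unfold pI
    have h5 : Measurable fun x : ℂ × ℂ => ex (be (mom x)) :=
      measurable_ex.comp (measurable_be.comp measurable_mom)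
    exact measurable_fst.prodMk (h5.mul measurable_fst)
  exact h1.inter (h2.inter h3)

theorem mem_GOut {e : ℂ} (he : ‖e‖ = 1) {j : ℝ} (hj : j ∈ GJ) : pO e j ∈ GOut := by
  refine ⟨?_, ?_, ?_⟩
  · show ‖2 * e‖ = 2
    rw [norm_mul, he]; norm_num
  · rw [mom_O hj.1.1 hj.1.2 he]; exact hj
  · rw [mom_O hj.1.1 hj.1.2 he]
    show pO e j = pO (2 * e / 2) j
    rw [mul_div_cancel_left₀ e two_ne_zero]

theorem mem_GIn {e : ℂ} (he : ‖e‖ = 1) {j : ℝ} (hj : j ∈ GJ) : pI e j ∈ GIn := by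
  refine ⟨he, ?_, ?_⟩
  · rw [mom_I hj.1.1 hj.1.2 he]; exact hj
  · rw [mom_I hj.1.1 hj.1.2 he]
    rfl

theorem ae_out : ∀ᵐ x ∂(Measure.map FOut rho), x ∈ GOut := by
  refine (ae_map_iff (p := fun x => x ∈ GOut) measurable_FOut.aemeasurable
    measurableSet_GOut).2 ?_
  filter_upwards [ae_rho_GJ] with p hp
  exact mem_GOut (norm_ee _) hp.2

theorem ae_in : ∀ᵐ x ∂(Measure.map FIn rho), x ∈ GIn := by
  refine (ae_map_iff (p := fun x => x ∈ GIn) measurable_FIn.aemeasurable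
    measurableSet_GIn).2 ?_
  filter_upwards [ae_rho_GJ] with p hp
  exact mem_GIn (norm_ee _) hp.2

theorem ae_mu {P : ℂ × ℂ → Prop} (h1 : ∀ᵐ x ∂(Measure.map FOut rho), P x)
    (h2 : ∀ᵐ x ∂(Measure.map FIn rho), P x) : ∀ᵐ x ∂mu, P x := by
  unfold mu
  rw [ae_add_measure_iff]
  exact ⟨Measure.ae_smul_measure h1 _, Measure.ae_smul_measure h2 _⟩

theorem of_ae_mu {P : ℂ × ℂ → Prop} (h : ∀ᵐ x ∂mu, P x) :
    (∀ᵐ x ∂(Measure.map FOut rho), P x) := by
  unfold mu at h
  rw [ae_add_measure_iff] at h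
  have h1 := h.1
  rw [Measure.ae_ennreal_smul_measure_iff (by simp)] at h1
  exact h1

theorem ae_good : ∀ᵐ x ∂mu, x ∈ GOut ∪ GIn :=
  ae_mu (ae_out.mono fun _ h => Or.inl h) (ae_in.mono fun _ h => Or.inr h)

theorem GOut_elim {x : ℂ × ℂ} (hx : x ∈ GOut) : ∃ e j, ‖e‖ = 1 ∧ j ∈ GJ ∧ x = pO e j ∧ j = mom x := by
  refine ⟨x.1 / 2, mom x, ?_, hx.2.1, hx.2.2, rfl⟩
  rw [norm_div, hx.1]; norm_num

theorem GIn_elim {x : ℂ × ℂ} (hx : x ∈ GIn) : ∃ e j, ‖e‖ = 1 ∧ j ∈ GJ ∧ x = pI e j ∧ j = mom x :=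
  ⟨x.1, mom x, hx.1, hx.2.1, hx.2.2, rfl⟩

theorem good_phase {x : ℂ × ℂ} (hx : x ∈ GOut ∪ GIn) : x ∈ ann.phase := by
  rcases hx with hx | hx
  · obtain ⟨e, j, he, hj, rfl, _⟩ := GOut_elim hx
    exact (phase_O hj.1.1 hj.1.2 he).1
  · obtain ⟨e, j, he, hj, rfl, _⟩ := GIn_elim hx
    exact (phase_I hj.1.1 hj.1.2 he).1

theorem good_reg {x : ℂ × ℂ} (hx : x ∈ GOut ∪ GIn) : ann.RegularOrbit x := by
  rcases hx with hx | hx
  · obtain ⟨e, j, he, hj, rfl, _⟩ := GOut_elim hx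
    exact reg_O hj.1.1 hj.1.2 he
  · obtain ⟨e, j, he, hj, rfl, _⟩ := GIn_elim hx
    exact reg_I hj.1.1 hj.1.2 he

theorem good_aper {x : ℂ × ℂ} (hx : x ∈ GOut ∪ GIn) (n : ℕ) (hn : 1 ≤ n) :
    ann.T^[n] x ≠ x := by
  rcases hx with hx | hx
  · obtain ⟨e, j, he, hj, rfl, _⟩ := GOut_elim hx
    exact (aper hj.1.1 hj.1.2 hj.2 he n hn).1
  · obtain ⟨e, j, he, hj, rfl, _⟩ := GIn_elim hx
    exact (aper hj.1.1 hj.1.2 hj.2 he n hn).2

theorem good_deriv {x : ℂ × ℂ} (hx : x ∈ GOut ∪ GIn) : ∃ L, ann.HasDeriv x L := by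
  rcases hx with hx | hx
  · obtain ⟨e, j, he, hj, rfl, _⟩ := GOut_elim hx
    exact hasDeriv_O hj.1.1 hj.1.2 he
  · obtain ⟨e, j, he, hj, rfl, _⟩ := GIn_elim hx
    exact hasDeriv_I hj.1.1 hj.1.2 he

open Classical in
/-- measurable version of the billiard map -/
noncomputable def T0 (x : ℂ × ℂ) : ℂ × ℂ :=
  if ‖x.1‖ = 2 then pI (rt (mom x) * (x.1 / 2)) (mom x) else pO (rt (mom x) * x.1) (mom x)

theorem measurable_T0 : Measurable T0 := by
  unfold T0
  have hr : Measurable fun x : ℂ × ℂ => rt (mom x) := measurable_rt.comp measurable_mom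
  apply Measurable.ite (measurableSet_eq_fun measurable_fst.norm measurable_const)
  · unfold pI
    have h1 : Measurable fun x : ℂ × ℂ => rt (mom x) * (x.1 / 2) :=
      hr.mul (measurable_fst.div_const 2)
    have h5 : Measurable fun x : ℂ × ℂ => ex (be (mom x)) :=
      measurable_ex.comp (measurable_be.comp measurable_mom)
    exact h1.prodMk (h5.mul h1)
  · unfold pO
    have h1 : Measurable fun x : ℂ × ℂ => rt (mom x) * x.1 := hr.mul measurable_fst
    have h5 : Measurable fun x : ℂ × ℂ => ex (-al (mom x)) :=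
      measurable_ex.comp (measurable_al.comp measurable_mom).neg
    exact (h1.const_mul 2).prodMk (h5.mul h1).neg

theorem T0_O {j : ℝ} (h0 : 0 < j) (h1 : j < 1) {e : ℂ} (he : ‖e‖ = 1) :
    T0 (pO e j) = pI (rt j * e) j := by
  have h2 : ‖(pO e j).1‖ = 2 := by
    show ‖2 * e‖ = 2
    rw [norm_mul, he]; norm_num
  unfold T0
  rw [if_pos h2, mom_O h0 h1 he]
  show pI (rt j * (2 * e / 2)) j = _
  rw [mul_div_cancel_left₀ e two_ne_zero]

theorem T0_I {j : ℝ} (h0 : 0 < j) (h1 : j < 1) {e : ℂ} (he : ‖e‖ = 1) :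
    T0 (pI e j) = pO (rt j * e) j := by
  have h2 : ¬ ‖(pI e j).1‖ = 2 := by
    show ¬ ‖e‖ = 2
    rw [he]; norm_num
  unfold T0
  rw [if_neg h2, mom_I h0 h1 he]
  rfl

theorem good_T {x : ℂ × ℂ} (hx : x ∈ GOut ∪ GIn) : ann.T x = T0 x := by
  rcases hx with hx | hx
  · obtain ⟨e, j, he, hj, rfl, _⟩ := GOut_elim hx
    rw [T_O hj.1.1 hj.1.2 he, T0_O hj.1.1 hj.1.2 he]
  · obtain ⟨e, j, he, hj, rfl, _⟩ := GIn_elim hx
    rw [T_I hj.1.1 hj.1.2 he, T0_I hj.1.1 hj.1.2 he]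

theorem map_out : Measure.map T0 (Measure.map FOut rho) = Measure.map FIn rho := by
  rw [Measure.map_map measurable_T0 measurable_FOut]
  have h1 : T0 ∘ FOut =ᵐ[rho] FIn ∘ RR := by
    filter_upwards [ae_rho_GJ] with p hp
    show T0 (pO (ee p.2) (Jf p.1)) = pI (ee (p.2 + _)) (Jf p.1)
    rw [T0_O (Jf_pos hp.1) (Jf_lt hp.1) (norm_ee _), ee_add]
  rw [Measure.map_congr h1, ← Measure.map_map measurable_FIn mp_RR.measurable, mp_RR.map_eq]

theorem map_in : Measure.map T0 (Measure.map FIn rho) = Measure.map FOut rho := by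
  rw [Measure.map_map measurable_T0 measurable_FIn]
  have h1 : T0 ∘ FIn =ᵐ[rho] FOut ∘ RR := by
    filter_upwards [ae_rho_GJ] with p hp
    show T0 (pI (ee p.2) (Jf p.1)) = pO (ee (p.2 + _)) (Jf p.1)
    rw [T0_I (Jf_pos hp.1) (Jf_lt hp.1) (norm_ee _), ee_add]
  rw [Measure.map_congr h1, ← Measure.map_map measurable_FOut mp_RR.measurable, mp_RR.map_eq]

theorem map_T : Measure.map ann.T mu = mu := by
  have h1 : ann.T =ᵐ[mu] T0 := ae_good.mono fun _ hx => good_T hx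
  rw [Measure.map_congr h1]
  unfold mu
  rw [Measure.map_add _ _ measurable_T0, Measure.map_smul, Measure.map_smul, map_out, map_in,
    add_comm]

theorem aemeasurable_T : AEMeasurable ann.T mu :=
  ⟨T0, measurable_T0, ae_good.mono fun _ hx => good_T hx⟩

theorem lintegral_inv : ∫⁻ u in Ioo (0:ℝ) 1, ENNReal.ofReal u⁻¹ = ⊤ := by
  by_contra h
  have h1 : Integrable (fun u : ℝ => u⁻¹) (volume.restrict (Ioo 0 1)) := by
    rw [← lintegral_ofReal_ne_top_iff_integrable]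
    · exact h
    · exact measurable_inv.aestronglyMeasurable
    · filter_upwards [ae_restrict_mem measurableSet_Ioo] with u hu
      exact inv_nonneg.2 hu.1.le
  have h2 : IntervalIntegrable (fun u : ℝ => u⁻¹) volume 0 1 := by
    rw [intervalIntegrable_iff_integrableOn_Ioo_of_le zero_le_one]
    exact h1
  rw [intervalIntegrable_inv_iff] at h2
  rcases h2 with h2 | h2
  · norm_num at h2
  · exact h2 left_mem_uIcc

theorem lintegral_top (D : ℂ × ℂ → (ℝ × ℝ →L[ℝ] ℝ × ℝ)) (hD : ∀ᵐ x ∂mu, ann.HasDeriv x (D x)) :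
    ∫⁻ x, ENNReal.ofReal (Real.posLog ‖D x‖) ∂mu = ⊤ := by
  have h1 := of_ae_mu hD
  have h2 : ∫⁻ x, ENNReal.ofReal (Real.log (Real.sqrt (1 - mom x ^ 2))⁻¹) ∂(Measure.map FOut rho)
      ≤ ∫⁻ x, ENNReal.ofReal (Real.posLog ‖D x‖) ∂(Measure.map FOut rho) := by
    apply lintegral_mono_ae
    filter_upwards [h1, ae_out] with x hx hx'
    obtain ⟨e, j, he, hj, rfl, hm⟩ := GOut_elim hx'
    apply ENNReal.ofReal_le_ofReal
    rw [← hm]
    have h3 := lower_O hj.1.1 hj.1.2 he hx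
    have hpos : 0 < (Real.sqrt (1 - j ^ 2))⁻¹ :=
      inv_pos.2 (Real.sqrt_pos.2 (by nlinarith [hj.1.1, hj.1.2]))
    exact (Real.log_le_log hpos h3).trans (le_max_right _ _)
  have h3 : ∫⁻ x, ENNReal.ofReal (Real.log (Real.sqrt (1 - mom x ^ 2))⁻¹) ∂(Measure.map FOut rho)
      = ⊤ := by
    have hmeas : Measurable fun x : ℂ × ℂ =>
        ENNReal.ofReal (Real.log (Real.sqrt (1 - mom x ^ 2))⁻¹) := by
      have := measurable_mom
      fun_prop
    rw [lintegral_map hmeas measurable_FOut]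
    have h4 : (fun p : ℝ × UnitAddCircle =>
        ENNReal.ofReal (Real.log (Real.sqrt (1 - mom (FOut p) ^ 2))⁻¹)) =ᵐ[rho]
        fun p => ENNReal.ofReal (p.1)⁻¹ * 1 := by
      filter_upwards [ae_rho_GJ] with p hp
      unfold FOut
      rw [mom_O (Jf_pos hp.1) (Jf_lt hp.1) (norm_ee _), Jf_inv hp.1, Real.log_exp, mul_one,
        one_div]
    rw [lintegral_congr_ae h4]
    unfold rho
    rw [lintegral_prod_mul (f := fun u : ℝ => ENNReal.ofReal u⁻¹)
      (g := fun _ : UnitAddCircle => (1:ℝ≥0∞))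
      (by fun_prop) (by fun_prop), lintegral_inv]
    simp
  rw [h3, top_le_iff] at h2
  unfold mu
  rw [lintegral_add_measure, lintegral_smul_measure, h2]
  simp

end V1189.Annulus
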