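import Pool.Agent.V1189.Annulus.Dyn

set_option autoImplicit false
set_option linter.unusedSimpArgs false

open Set MeasureTheory Filter Topology

namespace V1189.Annulus

/-- angle at the outer circle for angular momentum `j` -/
noncomputable def al (j : ℝ) : ℝ := Real.arcsin (j / 2)
/-- angle at the inner circle for angular momentum `j` -/
noncomputable def be (j : ℝ) : ℝ := Real.arcsin j
/-- rotation -/
noncomputable def rt (j : ℝ) : ℂ := ex (be j - al j)

noncomputable def pO (e : ℂ) (j : ℝ) : ℂ × ℂ := (2 * e, -(ex (-al j) * e))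
noncomputable def pI (e : ℂ) (j : ℝ) : ℂ × ℂ := (e, ex (be j) * e)

/-- angular momentum -/
def mom (x : ℂ × ℂ) : ℝ := x.1.re * x.2.im - x.1.im * x.2.re

theorem sin_al {j : ℝ} (h0 : 0 < j) (h1 : j < 1) : Real.sin (al j) = j / 2 :=
  Real.sin_arcsin (by linarith) (by linarith)

theorem sin_be {j : ℝ} (h0 : 0 < j) (h1 : j < 1) : Real.sin (be j) = j :=
  Real.sin_arcsin (by linarith) (by linarith)

theorem cos_be (j : ℝ) : Real.cos (be j) = Real.sqrt (1 - j ^ 2) := Real.cos_arcsin j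

theorem cos_be_pos {j : ℝ} (h0 : 0 < j) (h1 : j < 1) : 0 < Real.cos (be j) := by
  rw [cos_be]
  exact Real.sqrt_pos.2 (by nlinarith)

theorem cos_al_pos {j : ℝ} (h0 : 0 < j) (h1 : j < 1) : 0 < Real.cos (al j) := by
  unfold al
  rw [Real.cos_arcsin]
  exact Real.sqrt_pos.2 (by nlinarith)

theorem hab_j {j : ℝ} (h0 : 0 < j) (h1 : j < 1) : Real.sin (be j) = 2 * Real.sin (al j) := by
  rw [sin_al h0 h1, sin_be h0 h1]; ring

theorem stepO {j : ℝ} (h0 : 0 < j) (h1 : j < 1) {e : ℂ} (he : ‖e‖ = 1) :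
    ann.Step (pO e j) (pI (rt j * e) j) :=
  stepOI (hab_j h0 h1) (cos_be_pos h0 h1).le (cos_al_pos h0 h1) he

theorem stepI {j : ℝ} (h0 : 0 < j) (h1 : j < 1) {e : ℂ} (he : ‖e‖ = 1) :
    ann.Step (pI e j) (pO (rt j * e) j) :=
  stepIO (hab_j h0 h1) (cos_be_pos h0 h1).le (cos_al_pos h0 h1) he

theorem norm_rt (j : ℝ) : ‖rt j‖ = 1 := norm_ex _

theorem norm_rt_mul (j : ℝ) {e : ℂ} (he : ‖e‖ = 1) : ‖rt j * e‖ = 1 := by
  rw [norm_mul, norm_rt, he, one_mul]

theorem T_O {j : ℝ} (h0 : 0 < j) (h1 : j < 1) {e : ℂ} (he : ‖e‖ = 1) :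
    ann.T (pO e j) = pI (rt j * e) j := ann.T_eq (stepO h0 h1 he)

theorem T_I {j : ℝ} (h0 : 0 < j) (h1 : j < 1) {e : ℂ} (he : ‖e‖ = 1) :
    ann.T (pI e j) = pO (rt j * e) j := ann.T_eq (stepI h0 h1 he)

theorem sq_one {e : ℂ} (he : ‖e‖ = 1) : e.re * e.re + e.im * e.im = 1 := by
  have := sq_norm_eq e
  rw [he] at this
  linarith

theorem mom_O {j : ℝ} (h0 : 0 < j) (h1 : j < 1) {e : ℂ} (he : ‖e‖ = 1) : mom (pO e j) = j := by
  have h := sq_one he
  have hs := sin_al h0 h1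
  unfold mom pO
  simp only [Complex.mul_re, Complex.mul_im, Complex.neg_re, Complex.neg_im, Complex.re_ofNat,
    Complex.im_ofNat, ex_re, ex_im, Real.cos_neg, Real.sin_neg]
  linear_combination 2 * Real.sin (al j) * h + 2 * hs

theorem mom_I {j : ℝ} (h0 : 0 < j) (h1 : j < 1) {e : ℂ} (he : ‖e‖ = 1) : mom (pI e j) = j := by
  have h := sq_one he
  have hs := sin_be h0 h1
  unfold mom pI
  simp only [Complex.mul_re, Complex.mul_im, ex_re, ex_im]
  linear_combination Real.sin (be j) * h + hs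

theorem phase_O {j : ℝ} (h0 : 0 < j) (h1 : j < 1) {e : ℂ} (he : ‖e‖ = 1) :
    pO e j ∈ ann.phase ∧ 0 < dot (pO e j).2 (ann.ν (pO e j).1) := by
  have hd : dot (pO e j).2 (ann.ν (pO e j).1) = Real.cos (al j) := by
    show dot (-(ex (-al j) * e)) (nrm (2 * e)) = _
    rw [nrm_two he, dot_neg]
    have : -(ex (-al j) * e) = (-ex (-al j)) * e := by ring
    rw [this, dot_mul_self _ _ he]
    simp only [Complex.neg_re, ex_re, Real.cos_neg]
    ring
  refine ⟨⟨?_, ?_, ?_⟩, ?_⟩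
  · show 2 * e ∈ frontier annQ
    rw [frontier_annQ]
    right
    rw [norm_mul, he]; norm_num
  · show ‖-(ex (-al j) * e)‖ = 1
    rw [norm_neg, norm_mul, norm_ex, he, one_mul]
  · rw [hd]; exact (cos_al_pos h0 h1).le
  · rw [hd]; exact cos_al_pos h0 h1

theorem phase_I {j : ℝ} (h0 : 0 < j) (h1 : j < 1) {e : ℂ} (he : ‖e‖ = 1) :
    pI e j ∈ ann.phase ∧ 0 < dot (pI e j).2 (ann.ν (pI e j).1) := by
  have hd : dot (pI e j).2 (ann.ν (pI e j).1) = Real.cos (be j) := by
    show dot (ex (be j) * e) (nrm e) = _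
    rw [nrm_one he, dot_mul_self _ _ he, ex_re]
  refine ⟨⟨?_, ?_, ?_⟩, ?_⟩
  · show e ∈ frontier annQ
    rw [frontier_annQ]
    exact Or.inl he
  · show ‖ex (be j) * e‖ = 1
    rw [norm_mul, norm_ex, he, one_mul]
  · rw [hd]; exact (cos_be_pos h0 h1).le
  · rw [hd]; exact cos_be_pos h0 h1

theorem norm_rt_zpow (j : ℝ) (n : ℤ) {e : ℂ} (he : ‖e‖ = 1) : ‖rt j ^ n * e‖ = 1 := by
  rw [norm_mul, norm_zpow, norm_rt, one_zpow, he, one_mul]

theorem rt_ne (j : ℝ) : rt j ≠ 0 := ex_ne_zero _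

theorem reg_O {j : ℝ} (h0 : 0 < j) (h1 : j < 1) {e : ℂ} (he : ‖e‖ = 1) :
    ann.RegularOrbit (pO e j) := by
  refine ⟨fun n => if Even n then pO (rt j ^ n * e) j else pI (rt j ^ n * e) j, by simp, ?_⟩
  intro n
  by_cases hn : Even n
  · have hn' : ¬ Even (n + 1) := by
      rw [Int.not_even_iff_odd]; exact hn.add_one
    simp only [if_pos hn, if_neg hn']
    refine ⟨(phase_O h0 h1 (norm_rt_zpow j n he)).1, (phase_O h0 h1 (norm_rt_zpow j n he)).2, ?_⟩
    have := stepO h0 h1 (norm_rt_zpow j n he)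
    rw [← mul_assoc, ← zpow_one_add₀ (rt_ne j), add_comm] at this
    exact this
  · have hn' : Even (n + 1) := by
      rw [Int.not_even_iff_odd] at hn; exact hn.add_one
    simp only [if_pos hn', if_neg hn]
    refine ⟨(phase_I h0 h1 (norm_rt_zpow j n he)).1, (phase_I h0 h1 (norm_rt_zpow j n he)).2, ?_⟩
    have := stepI h0 h1 (norm_rt_zpow j n he)
    rw [← mul_assoc, ← zpow_one_add₀ (rt_ne j), add_comm] at this
    exact this

theorem reg_I {j : ℝ} (h0 : 0 < j) (h1 : j < 1) {e : ℂ} (he : ‖e‖ = 1) :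
    ann.RegularOrbit (pI e j) := by
  refine ⟨fun n => if Even n then pI (rt j ^ n * e) j else pO (rt j ^ n * e) j, by simp, ?_⟩
  intro n
  by_cases hn : Even n
  · have hn' : ¬ Even (n + 1) := by
      rw [Int.not_even_iff_odd]; exact hn.add_one
    simp only [if_pos hn, if_neg hn']
    refine ⟨(phase_I h0 h1 (norm_rt_zpow j n he)).1, (phase_I h0 h1 (norm_rt_zpow j n he)).2, ?_⟩
    have := stepI h0 h1 (norm_rt_zpow j n he)
    rw [← mul_assoc, ← zpow_one_add₀ (rt_ne j), add_comm] at this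
    exact this
  · have hn' : Even (n + 1) := by
      rw [Int.not_even_iff_odd] at hn; exact hn.add_one
    simp only [if_pos hn', if_neg hn]
    refine ⟨(phase_O h0 h1 (norm_rt_zpow j n he)).1, (phase_O h0 h1 (norm_rt_zpow j n he)).2, ?_⟩
    have := stepO h0 h1 (norm_rt_zpow j n he)
    rw [← mul_assoc, ← zpow_one_add₀ (rt_ne j), add_comm] at this
    exact this

theorem iter {j : ℝ} (h0 : 0 < j) (h1 : j < 1) {e : ℂ} (he : ‖e‖ = 1) (n : ℕ) :
    (ann.T^[n] (pO e j) = if Even n then pO (rt j ^ n * e) j else pI (rt j ^ n * e) j) ∧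
    (ann.T^[n] (pI e j) = if Even n then pI (rt j ^ n * e) j else pO (rt j ^ n * e) j) := by
  induction n with
  | zero => simp
  | succ n ih =>
    have hnn : ‖rt j ^ n * e‖ = 1 := by
      rw [norm_mul, norm_pow, norm_rt, one_pow, he, one_mul]
    have hp : rt j * (rt j ^ n * e) = rt j ^ (n + 1) * e := by rw [pow_succ]; ring
    rw [Function.iterate_succ_apply', Function.iterate_succ_apply', ih.1, ih.2]
    by_cases hn : Even n
    · have hn' : ¬ Even (n + 1) := by
        rw [Nat.not_even_iff_odd]; exact hn.add_one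
      simp only [if_pos hn, if_neg hn']
      rw [T_O h0 h1 hnn, T_I h0 h1 hnn, hp]
      exact ⟨rfl, rfl⟩
    · have hn' : Even (n + 1) := by
        rw [Nat.not_even_iff_odd] at hn; exact hn.add_one
      simp only [if_pos hn', if_neg hn]
      rw [T_O h0 h1 hnn, T_I h0 h1 hnn, hp]
      exact ⟨rfl, rfl⟩

theorem aper {j : ℝ} (h0 : 0 < j) (h1 : j < 1) (hj : ∀ n : ℕ, 1 ≤ n → rt j ^ n ≠ 1)
    {e : ℂ} (he : ‖e‖ = 1) (n : ℕ) (hn1 : 1 ≤ n) :
    ann.T^[n] (pO e j) ≠ pO e j ∧ ann.T^[n] (pI e j) ≠ pI e j := by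
  have he0 : e ≠ 0 := by
    intro h; rw [h, norm_zero] at he; norm_num at he
  have hnn : ‖rt j ^ n * e‖ = 1 := by
    rw [norm_mul, norm_pow, norm_rt, one_pow, he, one_mul]
  obtain ⟨h2, h3⟩ := iter h0 h1 he n
  rw [h2, h3]
  have key : rt j ^ n * e = e → False := by
    intro h
    apply hj n hn1
    exact mul_right_cancel₀ he0 (by rw [h, one_mul])
  constructor
  · intro h
    have h4 := congrArg Prod.fst h
    by_cases hn : Even n
    · rw [if_pos hn] at h4
      exact key (mul_left_cancel₀ two_ne_zero h4)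
    · rw [if_neg hn] at h4
      have h5 : rt j ^ n * e = 2 * e := h4
      have h6 := congrArg norm h5
      rw [hnn, norm_mul, he] at h6
      norm_num at h6
  · intro h
    have h4 := congrArg Prod.fst h
    by_cases hn : Even n
    · rw [if_pos hn] at h4
      exact key h4
    · rw [if_neg hn] at h4
      have h5 : 2 * (rt j ^ n * e) = e := h4
      have h6 := congrArg norm h5
      rw [norm_mul, hnn, he] at h6
      norm_num at h6

end V1189.Annulus
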